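import Pool.Agent.Lib_helper80.SHQ.Uni
import Pool.Agent.Lib_helper74.NE.Comp

/-!
# Padded questions to the complete language (MP_675993_lc)

`strip u` removes the leading ones and the first zero of `u`. `padq q w` has length exactly `q` (if
`|w| < q`) and `strip (padq q w) = w`.
-/

set_option autoImplicit false

namespace Pool.Agent.SHQ

open Pool.Agent.CK Pool.Agent.CKP

/-- remove the leading ones and the first zero -/
def strip : List Bool → List Bool
  | [] => []
  | true :: l => strip l
  | false :: l => l

/-- `w` written with length exactly `q` -/
def padq (q : ℕ) (w : List Bool) : List Bool := List.replicate (q - 1 - w.length) true ++ false :: w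

theorem strip_padq (q : ℕ) (w : List Bool) : strip (padq q w) = w := by
  unfold padq
  induction q - 1 - w.length with
  | zero => rfl
  | succ n ih => rw [List.replicate_succ]; exact ih

theorem length_padq {q : ℕ} {w : List Bool} (h : w.length < q) : (padq q w).length = q := by
  unfold padq
  rw [List.length_append, List.length_replicate, List.length_cons]
  omega

theorem strip_length : ∀ u : List Bool, (strip u).length ≤ u.length
  | [] => le_rfl
  | true :: l => (strip_length l).trans (Nat.le_succ _)
  | false :: _ => Nat.le_succ _

theorem strip_rec (u : List Bool) : strip u =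
    List.rec (motive := fun _ => List Bool) [] (fun a t r => if a = true then r else t) u := by
  induction u with
  | nil => rfl
  | cons a t ih =>
    cases a with
    | false => rfl
    | true => exact ih

variable {O : Lang}

theorem sz_suffix {α : Type} [ToD α] {l l' : List α} (h : l' <:+ l) : sz l' ≤ sz l := by
  obtain ⟨t, rfl⟩ := h
  induction t with
  | nil => exact le_rfl
  | cons a t ih =>
    rw [List.cons_append, sz_cons]
    omega

theorem ptime_strip {γ : Type} [ToD γ] {u : γ → List Bool} (hu : PTime O u) :
    PTime O (fun x => strip (u x)) := by
  have h1 : PTime O (fun l : List Bool => strip l) := by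
    have h := PTime.listRec_add (O := O) (γ := List Bool) (l := fun l : List Bool => l)
      (n := fun _ => ([] : List Bool))
      (c := fun _ a t r => if a = true then r else t) PTime.id (PTime.const _)
      (PTime.ite PTime.id.snd.fst PTime.id.snd.snd.snd PTime.id.snd.snd.fst)
      Polynomial.X (by
        intro x b a t ht
        rw [Polynomial.eval_X]
        split_ifs with h
        · omega
        · have h1 := sz_suffix ht
          rw [sz_cons] at h1
          omega)
    exact h.of_eq fun x => (strip_rec x).symm
  exact h1.comp hu

theorem ptime_S : ∀ (m : ℕ) (S : ℕ → Bool), (∀ j, m ≤ j → S j = true) → PTime O S := by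
  intro m
  induction m with
  | zero =>
    intro S hS
    have e : S = fun _ => true := funext fun j => hS j (Nat.zero_le _)
    rw [e]
    exact PTime.const true
  | succ m ih =>
    intro S hS
    have h1 := ih (Function.update S m true) (by
      intro j hj
      by_cases h : j = m
      · rw [h, Function.update_self]
      · rw [Function.update_of_ne h]
        exact hS j (by omega))
    refine (PTime.ite (PTime.nat_eq (PTime.id (α := ℕ)) (PTime.const m)) (PTime.const (S m))
      h1).of_eq fun n => ?_
    by_cases h : n = m
    · simp [h]
    · simp [h, Function.update_of_ne]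

/-- the complete language with padding -/
noncomputable def UKp (O : Lang) : Lang := fun u => UK O (strip u)

theorem rs_UKp_inNP (m : ℕ) (S : ℕ → Bool) (hS : ∀ j, m < j → S j = true) :
    InNP O (rs S (UKp O)) := by
  refine inNP_of (V := fun p : List Bool × List Bool => S p.1.length && VU O (strip p.1, p.2))
    (((ptime_S (m + 1) S fun j hj => hS j (by omega)).comp (PTime.length PTime.id.fst)).and
      (PTime.VU (ptime_strip PTime.id.fst) PTime.id.snd)) (B := fun n => n) UPoly.id ?_ ?_
  · intro x hx
    unfold rs UKp at hx
    rw [Bool.and_eq_true] at hx
    obtain ⟨y, hy, hV⟩ := (UK_iff _).1 hx.2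
    refine ⟨y, hy.trans (strip_length x), ?_⟩
    show (S x.length && VU O (strip x, y)) = true
    rw [hx.1, hV]
    rfl
  · intro x y h
    change (S x.length && VU O (strip x, y)) = true at h
    rw [Bool.and_eq_true] at h
    show (S x.length && UK O (strip x)) = true
    rw [h.1, UK_of_VU h.2]
    rfl

theorem UKp_inNP : InNP O (UKp O) := by
  have h : rs (fun _ => true) (UKp O) = UKp O := funext fun u => Bool.true_and _
  rw [← h]
  exact rs_UKp_inNP 0 _ fun _ _ => rfl

end Pool.Agent.SHQ
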