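import Pool.Agent.Lib_helper80.SHQ.Tab

/-!
# Exponential time with short questions: the class (MP_675993_lc)
-/

set_option autoImplicit false

namespace Pool.Agent.SHQ

open Pool.Agent.CK Pool.Agent.CKP

variable {O : Lang}

/-- from programs for all oracles which are right on one length to `InEShort` -/
theorem inEShort_of {L : Lang} {ε : ℝ} {p : ℕ → ℕ} {a : ℕ}
    (hp : ∀ m, ∃ n0, ∀ n, n0 ≤ n → m < p n)
    (ha : ∀ n : ℕ, (p n : ℝ) ≤ a * (2 : ℝ) ^ (ε * n))
    (ET : ∀ Z : Lang, ∃ (c : Cmd) (k : ℕ), ∀ x : List Bool,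
      (∀ u : List Bool, u.length = p x.length → Z u = UK O (strip u)) → Dec (join O Z) c k L x) :
    InEShort O (UKp O) ε L := by
  obtain ⟨c, k, h⟩ := short_fixed (B := UKp O) (p := p) hp ET
  refine ⟨c, k, a, fun x m hm => h x m ?_⟩
  exact_mod_cast (ha x.length).trans hm

/-- a program with short questions to `B` is right with oracle `B`, too -/
theorem inENP_of_short {B L : Lang} {ε : ℝ} (hB : InNP O B) (h : InEShort O B ε L) :
    InENP O L := by
  obtain ⟨c, k, a, h⟩ := h
  refine ⟨B, hB, c, k, fun x => ?_⟩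
  obtain ⟨m, hm⟩ := exists_nat_ge ((a : ℝ) * (2 : ℝ) ^ (ε * x.length))
  obtain ⟨N, hN⟩ : ∃ N, N = x.length + 2 ^ (k * (x.length + 1)) := ⟨_, rfl⟩
  have h1 : Dec (join O (cut (m + N) B)) c k L x := h x (m + N) (by
    push_cast
    have : (0 : ℝ) ≤ N := Nat.cast_nonneg N
    linarith)
  have h2 : Dec (join O B) c k L x := h1.congr fun w hw => join_local (N := N) (fun w hw => by
    unfold cut
    rw [decide_eq_true (by omega), Bool.true_and]) w (by rw [hN]; exact hw)
  exact h2

end Pool.Agent.SHQ
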