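import Pool.Agent.Lib_helper74.NF.ClassesE

/-!
# Exponential time with short questions to a set, for the machine model of `CKF.Defs`
-/

set_option autoImplicit false

namespace Pool.Agent.CK

/-- The strings of `B` with at most `m` bits. -/
def cut (m : ℕ) (B : Lang) : Lang := fun w => decide (w.length ≤ m) && B w

/-- `L` is decided in time `2 ^ (k (|x| + 1))` by a deterministic program with oracle `O` and with
questions to `B` of length at most `a 2 ^ (ε |x|)`: the program decides `L x` if the strings with
more than `m` bits are removed from `B`, for every `m ≥ a 2 ^ (ε |x|)`. -/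
def InEShort (O B : Lang) (ε : ℝ) (L : Lang) : Prop :=
  ∃ (c : Cmd) (k a : ℕ), ∀ (x : List Bool) (m : ℕ), (a : ℝ) * (2 : ℝ) ^ (ε * x.length) ≤ m →
    Halts (join O (cut m B)) c x [] (2 ^ (k * (x.length + 1))) ∧
    (Accepts (join O (cut m B)) c x [] (2 ^ (k * (x.length + 1))) ↔ L x = true)

end Pool.Agent.CK
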