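import Pool.Agent.Lib_helper80.SHQ.Strip

/-!
# Finitely many answers of the oracle from a table (MP_675993_lc)

`short_fixed`: if for every oracle `Z` there is a program which decides `L` on all inputs `x` for
which `Z` agrees with `B` on the strings of length `p |x|`, then there is ONE program which decides
`L x` with the part of `B` up to length `m`, for all `x` and `m ≥ p |x|`.
-/

set_option autoImplicit false

namespace Pool.Agent.SHQ

open Pool.Agent.CK Pool.Agent.CKP

/-- push a string on stack `r` -/
def pushR (r : ℕ) : List Bool → Cmd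
  | [] => Cmd.skip
  | b :: l => Cmd.seq (pushR r l) (Cmd.push r b)

theorem pushR_run (P : Lang) (r : ℕ) : ∀ (l : List Bool) (k : List Cmd) (s : ℕ → List Bool),
    (step P)^[2 * l.length + 1] (pushR r l :: k, s) = (k, Function.update s r (l ++ s r)) := by
  intro l
  induction l with
  | nil =>
    intro k s
    show (k, s) = _
    rw [List.nil_append, Function.update_eq_self]
  | cons b l ih =>
    intro k s
    have e : 2 * (b :: l).length + 1 = 1 + (2 * l.length + 1) + 1 := by
      simp only [List.length_cons]
      omega
    rw [e, Function.iterate_succ_apply, Function.iterate_add_apply]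
    have h1 : step P (pushR r (b :: l) :: k, s) = (pushR r l :: Cmd.push r b :: k, s) := rfl
    rw [h1, ih]
    show (k, Function.update (Function.update s r (l ++ s r)) r
      (b :: (Function.update s r (l ++ s r)) r)) = _
    rw [Function.update_self, Function.update_idem]
    rfl

/-- ask about stack `r`; the answers for strings with fewer than `n` bits are those of `D` -/
def rd (D : Lang) (r : ℕ) (c d : Cmd) : ℕ → List Bool → Cmd
  | 0, pre => Cmd.seq (pushR r pre.reverse) (Cmd.ask r c d)
  | n + 1, pre => Cmd.cond r
      (Cmd.seq (pushR r pre.reverse) (if D pre.reverse = true then d else c))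
      (Cmd.seq (Cmd.pop r) (rd D r c d n (false :: pre)))
      (Cmd.seq (Cmd.pop r) (rd D r c d n (true :: pre)))

theorem rd_run (P D : Lang) (r : ℕ) (c d : Cmd) : ∀ (n : ℕ) (pre : List Bool) (k : List Cmd)
    (s : ℕ → List Bool), ∃ j, j ≤ 5 * n + 2 * pre.length + 3 ∧
      (step P)^[j] (rd D r c d n pre :: k, s) =
        ((if (if (s r).length < n then D (pre.reverse ++ s r) else P (pre.reverse ++ s r)) = true
          then d else c) :: k, Function.update s r (pre.reverse ++ s r)) := by
  intro n
  induction n with
  | zero =>
    intro pre k s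
    refine ⟨1 + (2 * pre.reverse.length + 1) + 1, ?_, ?_⟩
    · rw [List.length_reverse]; omega
    · rw [if_neg (Nat.not_lt_zero _), Function.iterate_succ_apply]
      have h1 : step P (rd D r c d 0 pre :: k, s) =
        (pushR r pre.reverse :: Cmd.ask r c d :: k, s) := rfl
      rw [h1, Function.iterate_add_apply, pushR_run]
      show ((if P (Function.update s r (pre.reverse ++ s r) r) = true then d else c) :: k, _) = _
      rw [Function.update_self]
  | succ n ih =>
    intro pre k s
    match hs : s r with
    | [] =>
      refine ⟨(2 * pre.reverse.length + 1) + 1 + 1, ?_, ?_⟩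
      · rw [List.length_reverse]; omega
      · have hc : ([] : List Bool).length < n + 1 := Nat.succ_pos n
        rw [if_pos hc, Function.iterate_succ_apply, Function.iterate_succ_apply]
        have h1 : step P (rd D r c d (n + 1) pre :: k, s) =
            (Cmd.seq (pushR r pre.reverse) (if D pre.reverse = true then d else c) :: k, s) := by
          show ((match s r with | [] => _ | false :: _ => _ | true :: _ => _) :: k, s) = _
          rw [hs]
        rw [h1]
        show (step P)^[2 * pre.reverse.length + 1] (pushR r pre.reverse ::
          (if D pre.reverse = true then d else c) :: k, s) = _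
        rw [pushR_run, hs, List.append_nil]
    | b :: t =>
      obtain ⟨j, hj, hr⟩ := ih (b :: pre) k (Function.update s r t)
      refine ⟨j + 1 + 1 + 1, ?_, ?_⟩
      · simp only [List.length_cons] at hj; omega
      · rw [Function.iterate_succ_apply, Function.iterate_succ_apply, Function.iterate_succ_apply]
        have h1 : step P (step P (step P (rd D r c d (n + 1) pre :: k, s))) =
            (rd D r c d n (b :: pre) :: k, Function.update s r t) := by
          have h2 : step P (rd D r c d (n + 1) pre :: k, s) =
              (Cmd.seq (Cmd.pop r) (rd D r c d n (b :: pre)) :: k, s) := by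
            show ((match s r with | [] => _ | false :: _ => _ | true :: _ => _) :: k, s) = _
            rw [hs]
            cases b <;> rfl
          rw [h2]
          show (rd D r c d n (b :: pre) :: k, Function.update s r (s r).tail) = _
          rw [hs]
          rfl
        rw [h1, hr, Function.update_self, Function.update_idem]
        have h3 : (b :: pre).reverse ++ t = pre.reverse ++ (b :: t) := by
          rw [List.reverse_cons, List.append_assoc]
          rfl
        rw [h3]
        simp only [List.length_cons, Nat.add_lt_add_iff_right]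

/-- the program with the answers of `D` for the strings with fewer than `n` bits -/
def tr (D : Lang) (n : ℕ) : Cmd → Cmd
  | Cmd.skip => Cmd.skip
  | Cmd.push r b => Cmd.push r b
  | Cmd.pop r => Cmd.pop r
  | Cmd.seq c d => Cmd.seq (tr D n c) (tr D n d)
  | Cmd.cond r b c d => Cmd.cond r (tr D n b) (tr D n c) (tr D n d)
  | Cmd.loop r c => Cmd.loop r (tr D n c)
  | Cmd.ask r c d => rd D r (tr D n c) (tr D n d) n []

/-- the oracle `P` with the answers of `D` for the strings with fewer than `n` bits -/
def md (D : Lang) (n : ℕ) (P : Lang) : Lang := fun w => if w.length < n then D w else P w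

theorem step_sim (P D : Lang) (n : ℕ) (cf : Config) : ∃ j, j ≤ 5 * n + 3 ∧
    (step P)^[j] (cf.1.map (tr D n), cf.2) =
      ((step (md D n P) cf).1.map (tr D n), (step (md D n P) cf).2) := by
  obtain ⟨l, s⟩ := cf
  cases l with
  | nil => exact ⟨0, Nat.zero_le _, rfl⟩
  | cons cmd k =>
    cases cmd with
    | skip => exact ⟨1, by omega, rfl⟩
    | push r b => exact ⟨1, by omega, rfl⟩
    | pop r => exact ⟨1, by omega, rfl⟩
    | seq c d => exact ⟨1, by omega, rfl⟩
    | cond r b c d =>
      refine ⟨1, by omega, ?_⟩
      show ((match s r with | [] => tr D n b | false :: _ => tr D n c | true :: _ => tr D n d) ::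
        k.map (tr D n), s) = (((match s r with | [] => b | false :: _ => c | true :: _ => d) ::
        k).map (tr D n), s)
      match s r with
      | [] => rfl
      | false :: _ => rfl
      | true :: _ => rfl
    | loop r c =>
      refine ⟨1, by omega, ?_⟩
      show (if s r = [] then (k.map (tr D n), s) else
        (tr D n c :: Cmd.loop r (tr D n c) :: k.map (tr D n), s)) = _
      have h1 : step (md D n P) (Cmd.loop r c :: k, s) =
        if s r = [] then (k, s) else (c :: Cmd.loop r c :: k, s) := rfl
      rw [h1]
      split_ifs <;> rfl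
    | ask r c d =>
      obtain ⟨j, hj, h⟩ := rd_run P D r (tr D n c) (tr D n d) n [] (k.map (tr D n)) s
      refine ⟨j, by simpa using hj, ?_⟩
      have h2 : ((Cmd.ask r c d :: k).map (tr D n), s) =
        (rd D r (tr D n c) (tr D n d) n [] :: k.map (tr D n), s) := rfl
      show (step P)^[j] ((Cmd.ask r c d :: k).map (tr D n), s) = _
      rw [h2, h]
      have h3 : step (md D n P) (Cmd.ask r c d :: k, s) =
        ((if md D n P (s r) = true then d else c) :: k, s) := rfl
      rw [h3, List.reverse_nil, List.nil_append, Function.update_eq_self]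
      unfold md
      by_cases h4 : (s r).length < n
      · rw [if_pos h4]
        cases D (s r) <;> rfl
      · rw [if_neg h4]
        cases P (s r) <;> rfl

theorem iter_sim (P D : Lang) (n : ℕ) : ∀ (t : ℕ) (cf : Config), ∃ j, j ≤ (5 * n + 3) * t ∧
    (step P)^[j] (cf.1.map (tr D n), cf.2) =
      (((step (md D n P))^[t] cf).1.map (tr D n), ((step (md D n P))^[t] cf).2) := by
  intro t
  induction t with
  | zero => intro cf; exact ⟨0, Nat.zero_le _, rfl⟩
  | succ t ih =>
    intro cf
    obtain ⟨j1, hj1, h1⟩ := step_sim P D n cf
    obtain ⟨j2, hj2, h2⟩ := ih (step (md D n P) cf)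
    refine ⟨j2 + j1, ?_, ?_⟩
    · rw [Nat.mul_succ]; omega
    · rw [Function.iterate_add_apply, h1, h2, Function.iterate_succ_apply]

theorem Dec.tr {P D : Lang} {n : ℕ} {c : Cmd} {k : ℕ} {L : Lang} {x : List Bool}
    (h : Dec (md D n P) c k L x) : Dec P (SHQ.tr D n c) (k + (5 * n + 3)) L x := by
  obtain ⟨j, hj, hr⟩ := iter_sim P D n (2 ^ (k * (x.length + 1))) ([c], init x [])
  have h1 : (step (md D n P))^[2 ^ (k * (x.length + 1))] ([c], init x []) =
    run (md D n P) c x [] (2 ^ (k * (x.length + 1))) := rfl
  rw [h1] at hr
  unfold Dec at h ⊢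
  unfold Halts Accepts at h ⊢
  rw [h.1] at hr
  have h2 : (step P)^[j] ([SHQ.tr D n c], init x []) =
    ([], (run (md D n P) c x [] (2 ^ (k * (x.length + 1)))).2) := hr
  have hT : j ≤ 2 ^ ((k + (5 * n + 3)) * (x.length + 1)) := by
    have e : (k + (5 * n + 3)) * (x.length + 1) =
        k * (x.length + 1) + (5 * n + 3) * (x.length + 1) := by ring
    rw [e, pow_add]
    refine hj.trans ?_
    rw [Nat.mul_comm (5 * n + 3)]
    refine Nat.mul_le_mul_left _ ?_
    exact (Nat.lt_two_pow_self (n := 5 * n + 3)).le.trans
      (Nat.pow_le_pow_right (by norm_num) (Nat.le_mul_of_pos_right _ (by omega)))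
  have h3 : run P (SHQ.tr D n c) x [] (2 ^ ((k + (5 * n + 3)) * (x.length + 1))) =
      ([], (run (md D n P) c x [] (2 ^ (k * (x.length + 1)))).2) := by
    obtain ⟨e, he⟩ := Nat.exists_eq_add_of_le hT
    rw [he]
    unfold run
    rw [Nat.add_comm j e, Function.iterate_add_apply, h2, step_halted]
    rfl
  rw [h3]
  refine ⟨rfl, ?_⟩
  rw [← h.2]
  simp only [true_and, h.1]

/-- **One program for all truncated oracles**, without a change of `B`. -/
theorem short_fixed {O B L : Lang} {p : ℕ → ℕ} (hp : ∀ m, ∃ n0, ∀ n, n0 ≤ n → m < p n)
    (ET : ∀ Z : Lang, ∃ (c : Cmd) (k : ℕ), ∀ x : List Bool,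
      (∀ u : List Bool, u.length = p x.length → Z u = B u) → Dec (join O Z) c k L x) :
    ∃ (c : Cmd) (k : ℕ), ∀ (x : List Bool) (m : ℕ), p x.length ≤ m →
      Dec (join O (cut m B)) c k L x := by
  obtain ⟨c, k, m0, S0, h⟩ := uniform ET
  obtain ⟨n0, hn0⟩ := hp m0
  obtain ⟨c', k', h'⟩ := patch (tr (join O (rs S0 B)) (m0 + 2) c) (k + (5 * (m0 + 2) + 3)) n0 L
  refine ⟨c', k', fun x m hm => h' _ x fun hx => ?_⟩
  have hpx := hn0 x.length hx
  apply Dec.tr
  have h1 := h (fun j => decide (j ≤ m) && (if j ≤ m0 then S0 j else true)) (fun j hj => by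
    rw [if_pos hj, decide_eq_true (by omega), Bool.true_and]) x (by
    rw [if_neg (by omega), decide_eq_true hm]
    rfl)
  have e : join O (rs (fun j => decide (j ≤ m) && (if j ≤ m0 then S0 j else true)) B) =
      md (join O (rs S0 B)) (m0 + 2) (join O (cut m B)) := by
    funext w
    unfold md
    match w with
    | [] =>
      rw [if_pos (by simp)]
      rfl
    | false :: w => split_ifs <;> rfl
    | true :: w =>
      show ((decide (w.length ≤ m) && (if w.length ≤ m0 then S0 w.length else true)) && B w) =
        if (true :: w).length < m0 + 2 then (S0 w.length && B w)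
          else (decide (w.length ≤ m) && B w)
      rw [List.length_cons]
      by_cases hw : w.length ≤ m0
      · rw [if_pos hw, if_pos (by omega), decide_eq_true (by omega : w.length ≤ m),
          Bool.true_and]
      · rw [if_neg hw, if_neg (by omega), Bool.and_true]
  rw [e] at h1
  exact h1

end Pool.Agent.SHQ
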