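import Pool.Agent.Lib_helper80.SHQ.ClassesS
import Pool.Agent.Lib_helper74.CKF.MACH
import Pool.Agent.Lib_helper74.CKF.ENUM

/-!
# One program for many oracles (MP_675993_lc)

`uniform`: if for every oracle `Z` there is a program which decides `L` on all inputs `x` for which
`Z` agrees with `B` on the strings of length `p |x|`, then there is ONE program for all oracles
which consist of the strings of `B` with length in `S`, where `S` has the prescribed values up to
`m0`; it decides `L x` if `p |x|` is in `S`.  `patch`: finitely many inputs.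
-/

set_option autoImplicit false

namespace Pool.Agent.SHQ

open Pool.Agent.CK

/-- The program `c` decides `L x` with oracle `P` in time `2 ^ (k (|x| + 1))`. -/
def Dec (P : Lang) (c : Cmd) (k : ℕ) (L : Lang) (x : List Bool) : Prop :=
  Halts P c x [] (2 ^ (k * (x.length + 1))) ∧
    (Accepts P c x [] (2 ^ (k * (x.length + 1))) ↔ L x = true)

/-- the strings of `B` whose length is in `S` -/
def rs (S : ℕ → Bool) (B : Lang) : Lang := fun u => S u.length && B u

theorem run_local {P P' : Lang} {c : Cmd} {x : List Bool} {t : ℕ}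
    (h : ∀ w : List Bool, w.length < x.length + t → P w = P' w) :
    run P c x [] t = run P' c x [] t := by
  unfold run
  rw [← mach_eval_runTree, ← mach_eval_runTree]
  exact DT.eval_congr _ _ (mach_allQ_runTree t _ x.length (x.length + t)
    (mach_init_len x [] x.length le_rfl (Nat.zero_le _)) le_rfl) h

theorem Dec.congr {P P' : Lang} {c : Cmd} {k : ℕ} {L : Lang} {x : List Bool}
    (h : ∀ w : List Bool, w.length < x.length + 2 ^ (k * (x.length + 1)) → P w = P' w)
    (hd : Dec P c k L x) : Dec P' c k L x := by
  unfold Dec Halts Accepts at hd ⊢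
  rw [← run_local h]
  exact hd

theorem join_local {O Z Z' : Lang} {N : ℕ} (h : ∀ w : List Bool, w.length < N → Z w = Z' w)
    (w : List Bool) (hw : w.length < N) : join O Z w = join O Z' w := by
  match w, hw with
  | [], _ => rfl
  | false :: w, _ => rfl
  | true :: w, hw =>
    show Z w = Z' w
    apply h
    simp only [List.length_cons] at hw
    omega

/-- The uniformization theorem (a category argument). -/
theorem uniform {O B L : Lang} {p : ℕ → ℕ}
    (ET : ∀ Z : Lang, ∃ (c : Cmd) (k : ℕ), ∀ x : List Bool,
      (∀ u : List Bool, u.length = p x.length → Z u = B u) → Dec (join O Z) c k L x) :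
    ∃ (c : Cmd) (k m0 : ℕ) (S0 : ℕ → Bool), ∀ S : ℕ → Bool, (∀ j, j ≤ m0 → S j = S0 j) →
      ∀ x : List Bool, S (p x.length) = true → Dec (join O (rs S B)) c k L x := by
  by_contra hcon
  push Not at hcon
  choose nxt hn1 xx hn2 hn3 using hcon
  -- the states
  let vis : Cmd → ℕ → List Bool → ℕ := fun c k x => x.length + 2 ^ (k * (x.length + 1))
  let step1 : ℕ → (ℕ → Bool) × ℕ → (ℕ → Bool) × ℕ := fun i s =>
    (nxt (prog i) (ex i) s.2 s.1,
      (s.2 + 1) + (p (xx (prog i) (ex i) s.2 s.1).length +
        vis (prog i) (ex i) (xx (prog i) (ex i) s.2 s.1)))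
  let St : ℕ → (ℕ → Bool) × ℕ := fun i => Nat.rec (fun _ => false, 0) (fun i s => step1 i s) i
  have hSt : ∀ i, St (i + 1) = step1 i (St i) := fun i => rfl
  have hlt : ∀ i, (St i).2 < (St (i + 1)).2 := by
    intro i
    rw [hSt]
    show (St i).2 < ((St i).2 + 1) + _
    omega
  have hmono : Monotone fun i => (St i).2 := monotone_nat_of_le_succ fun i => (hlt i).le
  have hge : ∀ i, i ≤ (St i).2 := by
    intro i
    induction i with
    | zero => exact Nat.zero_le _
    | succ i ih => exact Nat.succ_le_of_lt (lt_of_le_of_lt ih (hlt i))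
  have hag1 : ∀ i j, j ≤ (St i).2 → (St (i + 1)).1 j = (St i).1 j := by
    intro i j hj
    rw [hSt]
    exact hn1 (prog i) (ex i) (St i).2 (St i).1 j hj
  have hag : ∀ i d j, j ≤ (St i).2 → (St (i + d)).1 j = (St i).1 j := by
    intro i d j hj
    induction d with
    | zero => rfl
    | succ d ih =>
      have h1 : (St i).2 ≤ (St (i + d)).2 := hmono (Nat.le_add_right i d)
      rw [← Nat.add_assoc, hag1 (i + d) j (hj.trans h1), ih]
  obtain ⟨S, hS⟩ : ∃ S : ℕ → Bool, S = fun j => (St j).1 j := ⟨_, rfl⟩
  have hSag : ∀ i j, j ≤ (St i).2 → S j = (St i).1 j := by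
    intro i j hj
    rw [hS]
    show (St j).1 j = (St i).1 j
    rcases le_total i j with h | h
    · obtain ⟨d, rfl⟩ := Nat.exists_eq_add_of_le h
      exact hag i d _ hj
    · obtain ⟨d, rfl⟩ := Nat.exists_eq_add_of_le h
      exact (hag j d j (hge j)).symm
  obtain ⟨c, k, hck⟩ := ET (rs S B)
  obtain ⟨i, hi⟩ : ∃ i, i = Nat.pair (Encodable.encode c) k := ⟨_, rfl⟩
  have hc : prog i = c := by rw [hi]; exact enum_prog c k
  have hk : ex i = k := by rw [hi]; exact enum_ex c k
  obtain ⟨x, hx⟩ : ∃ x, x = xx (prog i) (ex i) (St i).2 (St i).1 := ⟨_, rfl⟩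
  have hS1 : (St (i + 1)).1 = nxt (prog i) (ex i) (St i).2 (St i).1 := by rw [hSt]
  have hS2 : (St (i + 1)).2 = ((St i).2 + 1) + (p x.length +
      (x.length + 2 ^ (k * (x.length + 1)))) := by
    rw [hSt, hx, ← hk]
  have hb1 : p x.length ≤ (St (i + 1)).2 := by
    rw [hS2]
    exact (Nat.le_add_right _ _).trans (Nat.le_add_left _ _)
  have hb2 : x.length + 2 ^ (k * (x.length + 1)) ≤ (St (i + 1)).2 := by
    rw [hS2]
    exact (Nat.le_add_left _ _).trans (Nat.le_add_left _ _)
  have h2 := hn2 (prog i) (ex i) (St i).2 (St i).1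
  have h3 := hn3 (prog i) (ex i) (St i).2 (St i).1
  rw [← hx, ← hS1] at h2 h3
  rw [hc, hk] at h3
  apply h3
  have h4 : Dec (join O (rs S B)) c k L x := by
    apply hck
    intro u hu
    show (S u.length && B u) = B u
    rw [hu, hSag (i + 1) _ hb1, h2, Bool.true_and]
  refine h4.congr fun w hw => join_local (N := x.length + 2 ^ (k * (x.length + 1))) ?_ w hw
  intro w hw
  show (S w.length && B w) = ((St (i + 1)).1 w.length && B w)
  rw [hSag (i + 1) _ (hw.le.trans hb2)]

/-! ### Finitely many inputs -/

/-- push a string on stack `0` -/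
def pushAll : List Bool → Cmd
  | [] => Cmd.skip
  | b :: l => Cmd.seq (pushAll l) (Cmd.push 0 b)

theorem pushAll_run (P : Lang) : ∀ (l : List Bool) (k : List Cmd) (s : ℕ → List Bool),
    (step P)^[2 * l.length + 1] (pushAll l :: k, s) = (k, Function.update s 0 (l ++ s 0)) := by
  intro l
  induction l with
  | nil =>
    intro k s
    show (k, s) = _
    rw [List.nil_append, Function.update_eq_self]
  | cons b l ih =>
    intro k s
    have e : 2 * (b :: l).length + 1 = 1 + (2 * l.length + 1) + 1 := by
      simp only [List.length_cons]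
      omega
    rw [e, Function.iterate_succ_apply, Function.iterate_add_apply]
    have h1 : step P (pushAll (b :: l) :: k, s) = (pushAll l :: Cmd.push 0 b :: k, s) := rfl
    rw [h1, ih]
    show (k, Function.update (Function.update s 0 (l ++ s 0)) 0
      (b :: (Function.update s 0 (l ++ s 0)) 0)) = _
    rw [Function.update_self, Function.update_idem]
    rfl

/-- read the input; if it has fewer than `n` bits then `lf`, otherwise write it back and go on
with `c` -/
def wrap (c : Cmd) (lf : List Bool → Cmd) : ℕ → List Bool → Cmd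
  | 0, pre => Cmd.seq (pushAll pre.reverse) c
  | n + 1, pre => Cmd.cond 0 (lf pre.reverse)
      (Cmd.seq (Cmd.pop 0) (wrap c lf n (false :: pre)))
      (Cmd.seq (Cmd.pop 0) (wrap c lf n (true :: pre)))

theorem wrap_run (P : Lang) (c : Cmd) (lf : List Bool → Cmd) : ∀ (n : ℕ) (pre : List Bool)
    (k : List Cmd) (s : ℕ → List Bool), ∃ j, j ≤ 5 * n + 2 * pre.length + 2 ∧
      (step P)^[j] (wrap c lf n pre :: k, s) = if (s 0).length < n then
        (lf (pre.reverse ++ s 0) :: k, Function.update s 0 []) else
        (c :: k, Function.update s 0 (pre.reverse ++ s 0)) := by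
  intro n
  induction n with
  | zero =>
    intro pre k s
    refine ⟨2 * pre.reverse.length + 1 + 1, ?_, ?_⟩
    · rw [List.length_reverse]; omega
    · rw [if_neg (Nat.not_lt_zero _), Function.iterate_succ_apply]
      have h1 : step P (wrap c lf 0 pre :: k, s) = (pushAll pre.reverse :: c :: k, s) := rfl
      rw [h1, pushAll_run]
  | succ n ih =>
    intro pre k s
    match hs : s 0 with
    | [] =>
      refine ⟨1, by omega, ?_⟩
      rw [if_pos (by simp)]
      have h1 : (step P)^[1] (wrap c lf (n + 1) pre :: k, s) = (lf pre.reverse :: k, s) := by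
        show ((match s 0 with | [] => _ | false :: _ => _ | true :: _ => _) :: k, s) = _
        rw [hs]
      rw [h1, List.append_nil]
      have h2 : Function.update s 0 [] = s := by
        rw [← hs]; exact Function.update_eq_self 0 s
      rw [h2]
    | b :: t =>
      obtain ⟨j, hj, hr⟩ := ih (b :: pre) k (Function.update s 0 t)
      refine ⟨j + 1 + 1 + 1, ?_, ?_⟩
      · simp only [List.length_cons] at hj; omega
      · rw [Function.iterate_succ_apply, Function.iterate_succ_apply, Function.iterate_succ_apply]
        have h1 : step P (step P (step P (wrap c lf (n + 1) pre :: k, s))) =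
            (wrap c lf n (b :: pre) :: k, Function.update s 0 t) := by
          have h2 : step P (wrap c lf (n + 1) pre :: k, s) =
              (Cmd.seq (Cmd.pop 0) (wrap c lf n (b :: pre)) :: k, s) := by
            show ((match s 0 with | [] => _ | false :: _ => _ | true :: _ => _) :: k, s) = _
            rw [hs]
            cases b <;> rfl
          rw [h2]
          show (wrap c lf n (b :: pre) :: k, Function.update s 0 (s 0).tail) = _
          rw [hs]
          rfl
        rw [h1, hr, Function.update_self, Function.update_idem, Function.update_idem]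
        have h3 : (b :: pre).reverse ++ t = pre.reverse ++ (b :: t) := by
          rw [List.reverse_cons, List.append_assoc]
          rfl
        rw [h3]
        simp only [List.length_cons, Nat.add_lt_add_iff_right]

theorem step_halted (P : Lang) (t : ℕ) (s : ℕ → List Bool) : (step P)^[t] ([], s) = ([], s) := by
  induction t with
  | zero => rfl
  | succ t ih => rw [Function.iterate_succ_apply]; exact ih

theorem run_mono {P : Lang} {c : Cmd} {x y : List Bool} {t t' : ℕ} (h : Halts P c x y t)
    (htt : t ≤ t') : run P c x y t' = run P c x y t := by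
  obtain ⟨d, rfl⟩ := Nat.exists_eq_add_of_le htt
  unfold Halts at h
  have h1 : run P c x y (t + d) = (step P)^[d] (run P c x y t) := by
    unfold run
    rw [Nat.add_comm, Function.iterate_add_apply]
  have h2 : run P c x y t = ([], (run P c x y t).2) := by
    rw [← h]
  rw [h1, h2]
  exact step_halted P d _

theorem Dec.mono {P : Lang} {c : Cmd} {k k' : ℕ} {L : Lang} {x : List Bool} (h : Dec P c k L x)
    (hk : k ≤ k') : Dec P c k' L x := by
  have h1 : 2 ^ (k * (x.length + 1)) ≤ 2 ^ (k' * (x.length + 1)) :=
    Nat.pow_le_pow_right (by norm_num) (Nat.mul_le_mul_right _ hk)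
  have h2 := run_mono h.1 h1
  unfold Dec Halts Accepts at h ⊢
  rw [h2]
  exact h

/-- Finitely many inputs can be decided by a table, with the same program for all oracles. -/
theorem patch (c : Cmd) (k n0 : ℕ) (L : Lang) : ∃ (c' : Cmd) (k' : ℕ), ∀ (P : Lang)
    (x : List Bool), (n0 ≤ x.length → Dec P c k L x) → Dec P c' k' L x := by
  refine ⟨wrap c (fun x => pushAll [L x]) n0 [], k + (5 * n0 + 8), fun P x hx => ?_⟩
  obtain ⟨j, hj, hr⟩ := wrap_run P c (fun x => pushAll [L x]) n0 [] [] (init x [])
  have h0 : init x [] 0 = x := rfl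
  rw [h0] at hr
  simp only [List.reverse_nil, List.nil_append, List.length_nil] at hr hj
  have hbig : 2 ^ (k * (x.length + 1)) + (5 * n0 + 7) ≤
      2 ^ ((k + (5 * n0 + 8)) * (x.length + 1)) := by
    have h1 : 2 ^ ((k + (5 * n0 + 8)) * (x.length + 1)) =
        2 ^ (k * (x.length + 1)) * 2 ^ ((5 * n0 + 8) * (x.length + 1)) := by
      rw [← pow_add]; congr 1; ring
    rw [h1]
    have h2 : 1 ≤ 2 ^ (k * (x.length + 1)) := Nat.one_le_two_pow
    have h3 : 5 * n0 + 8 < 2 ^ (5 * n0 + 8) := Nat.lt_two_pow_self
    have h4 : 2 ^ (5 * n0 + 8) ≤ 2 ^ ((5 * n0 + 8) * (x.length + 1)) :=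
      Nat.pow_le_pow_right (by norm_num) (Nat.le_mul_of_pos_right _ (by omega))
    nlinarith
  have hpos : 0 < 2 ^ (k * (x.length + 1)) := by positivity
  have hgt : 3 + j ≤ 2 ^ ((k + (5 * n0 + 8)) * (x.length + 1)) := by
    refine le_trans ?_ hbig
    omega
  by_cases hlt : x.length < n0
  · rw [if_pos hlt] at hr
    have h1 : ∀ t, 3 + j ≤ t → run P (wrap c (fun x => pushAll [L x]) n0 []) x [] t =
        ([], Function.update (Function.update (init x []) 0 []) 0 [L x]) := by
      intro t ht
      obtain ⟨d, rfl⟩ := Nat.exists_eq_add_of_le ht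
      unfold run
      rw [show 3 + j + d = d + (3 + j) by omega, Function.iterate_add_apply,
        Function.iterate_add_apply, hr]
      have h2 := pushAll_run P [L x] [] (Function.update (init x []) 0 [])
      have h3 : 2 * [L x].length + 1 = 3 := rfl
      rw [h3] at h2
      rw [h2, step_halted]
      rw [Function.update_self]
      rfl
    have h2 := h1 (2 ^ ((k + (5 * n0 + 8)) * (x.length + 1))) hgt
    unfold Dec Halts Accepts
    rw [h2]
    refine ⟨rfl, ?_⟩
    show (([] : List Cmd) = [] ∧
      (Function.update (Function.update (init x []) 0 []) 0 [L x] 0).head? = some true) ↔ _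
    rw [Function.update_self]
    simp
  · rw [if_neg hlt] at hr
    have hD := hx (not_lt.1 hlt)
    have h1 : ∀ t, run P (wrap c (fun x => pushAll [L x]) n0 []) x [] (t + j) = run P c x [] t := by
      intro t
      unfold run
      rw [Function.iterate_add_apply, hr]
      have h2 : Function.update (init x []) 0 x = init x [] := Function.update_eq_self 0 (init x [])
      rw [h2]
    obtain ⟨d, hd⟩ := Nat.exists_eq_add_of_le (show j ≤
      2 ^ ((k + (5 * n0 + 8)) * (x.length + 1)) from (Nat.le_add_left _ _).trans hgt)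
    have hd' : 2 ^ (k * (x.length + 1)) ≤ d := by
      generalize 2 ^ ((k + (5 * n0 + 8)) * (x.length + 1)) = Y at *
      generalize 2 ^ (k * (x.length + 1)) = X at *
      omega
    have h2 : run P (wrap c (fun x => pushAll [L x]) n0 []) x []
        (2 ^ ((k + (5 * n0 + 8)) * (x.length + 1))) = run P c x [] (2 ^ (k * (x.length + 1))) := by
      rw [hd, Nat.add_comm j d, h1]
      exact run_mono hD.1 hd'
    unfold Dec Halts Accepts at hD ⊢
    rw [h2]
    exact hD

end Pool.Agent.SHQ
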